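import Pool.Agent.H37.CNQ.Stmts

/-!
# Row NQD: `N_G` divides `N_{G/C}` for a normal subgroup `C` of order prime to `p`
-/

set_option autoImplicit false

namespace Pool.CND

theorem nqd_thm (hQ : S_QUO) (hA : S_ALL) (hD : S_NGD) (hU : S_UPA) : S_NQD := by
  intro p k G _ _ _ _ C _ hp hk hC
  have hfin : Finite (G ⧸ C) := inferInstance
  have hpos : 1 ≤ NG k (G ⧸ C) := by
    have hne : {N : ℕ | 1 ≤ N ∧ {c : ℚ | c ∈ Cond k (G ⧸ C) ∧
        ¬ ∃ z : ℤ, (N : ℚ) * c = z}.Finite}.Nonempty := by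
      have hcard : Nat.card (G ⧸ C) ≠ 0 := Nat.card_pos.ne'
      refine ⟨p ^ (Nat.card (G ⧸ C)).factorization p *
        (Nat.card (G ⧸ C) / p ^ (Nat.card (G ⧸ C)).factorization p), ?_, ?_⟩
      · rw [Nat.ordProj_mul_ordCompl_eq_self]
        exact Nat.card_pos
      · have hE : EA p (⊥ : Subgroup (G ⧸ C)) := by
          refine ⟨?_, ?_⟩
          · intro a ha
            rw [Subgroup.mem_bot.1 ha, one_pow]
          · intro a ha b hb
            rw [Subgroup.mem_bot.1 ha, Subgroup.mem_bot.1 hb]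
        have h0 : {c : ℚ | c ∈ Cond k (G ⧸ C) ∧ ¬ ∃ z : ℤ,
            ((p ^ (Nat.card (G ⧸ C)).factorization p *
              (Nat.card (G ⧸ C) / p ^ (Nat.card (G ⧸ C)).factorization p) : ℕ) : ℚ) * c = z} = ∅ := by
          rw [Set.eq_empty_iff_forall_notMem]
          rintro c ⟨hc, hn⟩
          refine hn (hU p k (G ⧸ C) ⊥ _ _ hp hk hE (Nat.not_dvd_ordCompl hp hcard) ?_ c hc).1
          rw [Subgroup.card_bot, mul_one, Nat.ordProj_mul_ordCompl_eq_self]
        rw [h0]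
        exact Set.finite_empty
    exact (Nat.sInf_mem hne).1
  refine hD k G _ hpos ?_
  intro c hc
  by_cases h0 : c = 0
  · exact ⟨0, by rw [h0]; simp⟩
  · exact hA p k (G ⧸ C) c hp hk (hQ p k G C c hp hk hC hc h0)

end Pool.CND
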